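import Mathlib
import Pool.Agent.Q100.WR5

/-!
# MP_14d743_an, Q1: operators without eigenvalues that are not power bounded are weakly
numerically hypercyclic
-/

set_option autoImplicit false

open Set

namespace Pool.Agent.Results.MP_14d743_an.NoEigenvalues

universe u

/-- The numerical orbit of `T` at `x`, `f`. -/
def orbit {X : Type u} [NormedAddCommGroup X] [NormedSpace ℂ X] (T : X →L[ℂ] X) (x : X)
    (f : X →L[ℂ] ℂ) : Set ℂ :=
  range fun n : ℕ => f ((T ^ n) x)

/-- Numerical hypercyclicity: a dense numerical orbit at a pair with `‖x‖ = ‖f‖ = f x = 1`. -/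
def NumHyp {X : Type u} [NormedAddCommGroup X] [NormedSpace ℂ X] (T : X →L[ℂ] X) : Prop :=
  ∃ (x : X) (f : X →L[ℂ] ℂ), ‖x‖ = 1 ∧ ‖f‖ = 1 ∧ f x = 1 ∧ Dense (orbit T x f)

/-- Weak numerical hypercyclicity: similarity to a numerically hypercyclic operator on a Banach
space. -/
def WeaklyNumHyp {X : Type u} [NormedAddCommGroup X] [NormedSpace ℂ X] (T : X →L[ℂ] X) : Prop :=
  ∃ (Y : Type u) (_ : NormedAddCommGroup Y) (_ : NormedSpace ℂ Y) (_ : CompleteSpace Y)
    (S : Y →L[ℂ] Y) (J : X ≃L[ℂ] Y), (∀ x, J.symm (S (J x)) = T x) ∧ NumHyp S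

/-- Removing the first terms of a sequence with dense range in `ℂ`. -/
theorem dense_shift {a : ℕ → ℂ} (h : Dense (range a)) (k : ℕ) :
    Dense (range fun n => a (n + k)) := by
  have h1 : Dense (range a \ (a '' (Finset.range k : Set ℕ))) := by
    refine h.diff_finite (Set.Finite.image _ (Finset.finite_toSet _))
  refine h1.mono ?_
  rintro _ ⟨⟨n, rfl⟩, hn⟩
  have hkn : k ≤ n := by
    by_contra hcon
    exact hn ⟨n, by simpa using hcon, rfl⟩
  exact ⟨n - k, by simp only; rw [Nat.sub_add_cancel hkn]⟩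

/-- The renorming argument. -/
theorem weaklyNumHyp_of_dense {X : Type u} [NormedAddCommGroup X] [NormedSpace ℂ X]
    [CompleteSpace X] {T : X →L[ℂ] X} {x : X} {f : X →L[ℂ] ℂ} (h : Dense (orbit T x f)) :
    WeaklyNumHyp T := by
  have h0 : ∃ k, f ((T ^ k) x) ≠ 0 := by
    by_contra hcon
    push Not at hcon
    have : orbit T x f ⊆ {0} := by
      rintro _ ⟨n, rfl⟩
      exact hcon n
    have h1 := (h.mono this).closure_eq
    rw [closure_singleton] at h1
    have : (1 : ℂ) ∈ ({0} : Set ℂ) := h1 ▸ mem_univ _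
    simp at this
  obtain ⟨k, hk⟩ := h0
  set y : X := (T ^ k) x with hy
  set g : X →L[ℂ] ℂ := (f y)⁻¹ • f with hg
  have hgy : g y = 1 := by
    rw [hg, smul_apply, smul_eq_mul, inv_mul_cancel₀ hk]
  have hd : Dense (orbit T y g) := by
    have h1 := dense_shift h k
    have h2 : orbit T y g = (fun z : ℂ => (f y)⁻¹ * z) '' range fun n => f ((T ^ (n + k)) x) := by
      rw [← range_comp]
      unfold orbit
      congr 1
      funext n
      simp only [Function.comp]
      rw [hg, smul_apply, smul_eq_mul, pow_add]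
      rfl
    rw [h2]
    exact ((Homeomorph.mulLeft₀ (f y)⁻¹ (inv_ne_zero hk)).surjective.denseRange.dense_image
      (Homeomorph.mulLeft₀ (f y)⁻¹ (inv_ne_zero hk)).continuous h1)
  -- the space `ℂ × ker g`
  let K : Submodule ℂ X := LinearMap.ker (g : X →ₗ[ℂ] ℂ)
  have hKc : IsClosed (K : Set X) := g.isClosed_ker
  haveI : CompleteSpace K := hKc.completeSpace_coe
  let pr : X →L[ℂ] X := ContinuousLinearMap.id ℂ X - g.smulRight y
  have hpr : ∀ z, pr z = z - g z • y := fun z => rfl
  have hprK : ∀ z, pr z ∈ K := by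
    intro z
    show g (pr z) = 0
    rw [hpr, map_sub, map_smul, hgy, smul_eq_mul, mul_one, sub_self]
  let J₁ : X →L[ℂ] ℂ × K := g.prod (pr.codRestrict K hprK)
  let J₂ : ℂ × K →L[ℂ] X :=
    (ContinuousLinearMap.toSpanSingleton ℂ y).coprod K.subtypeL
  have hJ₂ : ∀ q, J₂ q = q.1 • y + (q.2 : X) := by
    intro q
    show (ContinuousLinearMap.toSpanSingleton ℂ y) q.1 + _ = _
    rw [ContinuousLinearMap.toSpanSingleton_apply]
    rfl
  have h12 : Function.LeftInverse J₂ J₁ := by
    intro z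
    rw [hJ₂]
    show g z • y + pr z = z
    rw [hpr]
    abel
  have h21 : Function.RightInverse J₂ J₁ := by
    intro q
    have hq : g (q.2 : X) = 0 := q.2.2
    have h1 : g (J₂ q) = q.1 := by
      rw [hJ₂, map_add, map_smul, hgy, hq, smul_eq_mul, mul_one, add_zero]
    refine Prod.ext h1 (Subtype.ext ?_)
    show pr (J₂ q) = q.2
    rw [hpr, h1, hJ₂]
    abel
  let J : X ≃L[ℂ] ℂ × K := ContinuousLinearEquiv.equivOfInverse J₁ J₂ h12 h21
  have hJ : ∀ z, J z = J₁ z := fun z => rfl
  let S : ℂ × K →L[ℂ] ℂ × K := (J : X →L[ℂ] ℂ × K) ∘L T ∘L (J.symm : ℂ × K →L[ℂ] X)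
  have hS : ∀ q, S q = J (T (J.symm q)) := fun q => rfl
  have hSn : ∀ n z, (S ^ n) (J z) = J ((T ^ n) z) := by
    intro n
    induction n with
    | zero => intro z; rfl
    | succ n ih =>
      intro z
      rw [pow_succ', pow_succ']
      show S ((S ^ n) (J z)) = J (T ((T ^ n) z))
      rw [ih, hS, ContinuousLinearEquiv.symm_apply_apply]
  refine ⟨ℂ × K, inferInstance, inferInstance, inferInstance, S, J, ?_, J y,
    ContinuousLinearMap.fst ℂ ℂ K, ?_, ?_, ?_, ?_⟩
  · intro z
    rw [hS, ContinuousLinearEquiv.symm_apply_apply, ContinuousLinearEquiv.symm_apply_apply]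
  · have h1 : J y = (1, 0) := by
      refine Prod.ext hgy (Subtype.ext ?_)
      show pr y = 0
      rw [hpr, hgy, one_smul, sub_self]
    rw [h1, Prod.norm_def]
    simp
  · refine le_antisymm (ContinuousLinearMap.norm_fst_le ℂ ℂ K) ?_
    have h1 := (ContinuousLinearMap.fst ℂ ℂ K).le_opNorm ((1 : ℂ), (0 : K))
    simpa [Prod.norm_def] using h1
  · exact hgy
  · have h1 : orbit S (J y) (ContinuousLinearMap.fst ℂ ℂ K) = orbit T y g := by
      unfold orbit
      congr 1
      funext n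
      rw [hSn]
      rfl
    rw [h1]
    exact hd

/-- **Main result.** Let `T` be a bounded operator on a complex Banach space `X` which is not
power bounded. If `T` has no eigenvalue of modulus equal to its spectral radius (in particular if
`T` has no eigenvalue), then some numerical orbit of `T` is dense in `ℂ`, and `T` is weakly
numerically hypercyclic. -/
theorem result (X : Type u) [NormedAddCommGroup X] [NormedSpace ℂ X] [CompleteSpace X]
    (T : X →L[ℂ] X) (hT : ¬ ∃ C : ℝ, ∀ n : ℕ, ‖T ^ n‖ ≤ C)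
    (hev : ∀ μ : ℂ, (‖μ‖₊ : ENNReal) = spectralRadius ℂ T → ∀ p : X, T p = μ • p → p = 0) :
    (∃ (x : X) (f : X →L[ℂ] ℂ), Dense (range fun n : ℕ => f ((T ^ n) x))) ∧ WeaklyNumHyp T := by
  have h : ∃ (x : X) (f : X →L[ℂ] ℂ), Dense (range fun n : ℕ => f ((T ^ n) x)) := by
    by_contra hcon
    push Not at hcon
    push Not at hT
    obtain ⟨μ, -, hμ, p, hp0, hp⟩ := Pool.Agent.Q100.WR.exists_eigenvalue hcon hT
    exact hp0 (hev μ hμ p hp)
  obtain ⟨x, f, hxf⟩ := h
  exact ⟨⟨x, f, hxf⟩, weaklyNumHyp_of_dense hxf⟩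

end Pool.Agent.Results.MP_14d743_an.NoEigenvalues
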